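import Pool.Agent.J4.H24.DG.Final3

/-!
# Isomorphism of almost unit disk graphs is GI-complete

The graph isomorphism problem for arbitrary finite graphs reduces, by a polynomial-time many-one
reduction (a Turing machine in the sense of Mathlib, working on bit strings), to the isomorphism
problem of disk graphs, the intersection graphs of closed disks in the Euclidean plane; even of
disk graphs whose disks have radii between `1` and `1 + ε` and contain one of two given points
(so that the graph is covered by two cliques).  The graphs produced by the reduction have this
property for every `ε > 0`.

The proof: an incidence relation is encoded by strands which run in parallel and are moved, one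
after the other, to the bottom; the reduction must not see the order of the strands.  The vertices
of one side are points in two groups of columns at distance about `D`, the vertices of the other
side are disks of diameter about `D`, whose boundaries touch only columns in which the strands have
different heights, or which cover all strands of a level.  The points of a column lie on a circular
arc of nearly the same radius as the disks, so that disks of nearly equal radii can cover intervals
of the column of very different lengths; this makes it possible to move a strand.  A Lorentz boost
of `ℝ^{2,1}` (the space of the disks of the plane) turns the points and disks into disks of nearly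
equal radii such that all disks of one side have a common point.

Pieces of the proof by helpers 7, 25, 35, 45, 55, 56, 61, 78, 91; the polynomial-time reduction and
the strands without order are adapted from the unit ball graphs of helper79 and from the starting
files for `MP_89b4f4_co`.
-/

set_option autoImplicit false

namespace Pool.Agent.Results.MP_128e7d_lc.AlmostUnitDiskGraphs

open Pool.Agent.NPC Pool.Agent.NPC.R671 Pool.Agent.Y815.GI Pool.Agent.J4.H79.GI
  Pool.Agent.J4.H24.DG

/-- **The isomorphism problem for disk graphs is GI-complete, even for disks with radii in
`[1, 1 + ε]` pierced by two points, for every `ε > 0`.**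

* There is a polynomial-time computable function `f` on bit strings such that, for *every* bit
  string `x`, the value `f x` codes a pair of adjacency matrices of graphs `X'`, `Y'` of
  `AlmostUnitClass` (for *every* `ε > 0`, the graph is the intersection graph of closed disks in
  the Euclidean plane with radii in `[1, 1 + ε]`, each disk containing one of two points), and `x`
  is a yes-instance of the graph isomorphism problem iff `X'` and `Y'` are isomorphic.
* Every graph of `AlmostUnitClass` is covered by two cliques.
* So the graph isomorphism problem is polynomial-time many-one reducible to the isomorphism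
  problem of every class of graphs which contains `AlmostUnitClass`; in particular, for every
  `ε > 0`, of the intersection graphs of disks with radii in `[1, 1 + ε]` which are covered by two
  cliques, and of the disk graphs.
* Graph isomorphism is in `P` iff some language in `P` decides isomorphism correctly on the pairs
  of graphs of `AlmostUnitClass`. -/
theorem result :
    (∃ f : List Bool → List Bool, PolyTime f ∧ ∀ x : List Bool,
      ∃ (N M : ℕ) (X' : SimpleGraph (Fin N)) (Y' : SimpleGraph (Fin M)),
        f x = bits (adjMatrix X', adjMatrix Y') ∧ AlmostUnitClass N X' ∧ AlmostUnitClass M Y' ∧
          (x ∈ lang GraphIso ↔ Nonempty (X' ≃g Y'))) ∧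
    (∀ (n : ℕ) (X : SimpleGraph (Fin n)), AlmostUnitClass n X → CoBipartite X) ∧
    (∀ C : ∀ n : ℕ, SimpleGraph (Fin n) → Prop,
      (∀ (n : ℕ) (X : SimpleGraph (Fin n)), AlmostUnitClass n X → C n X) →
        Reduces (lang GraphIso) (lang (ClassIso C))) ∧
    (∀ ε : ℝ, 0 < ε → Reduces (lang GraphIso) (lang (ClassIso fun _ X =>
      CoBipartite X ∧ IsNearUnitBallGraph (EuclideanSpace ℝ (Fin 2)) ε X))) ∧
    Reduces (lang GraphIso)
      (lang (ClassIso fun _ X => IsBallGraph (EuclideanSpace ℝ (Fin 2)) X)) ∧
    (InP (lang GraphIso) ↔ ∃ L : Set (List Bool), InP L ∧
      ∀ (N M : ℕ) (X : SimpleGraph (Fin N)) (Y : SimpleGraph (Fin M)), AlmostUnitClass N X →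
        AlmostUnitClass M Y → (bits (adjMatrix X, adjMatrix Y) ∈ L ↔ Nonempty (X ≃g Y))) :=
  ⟨almostUnitConstr.main,
    fun _ _ h => IsAlmostUnit.coBipartite (h 1 one_pos),
    fun C hC => almostUnitConstr.reduces C hC,
    fun ε hε => almostUnitConstr.reduces _ fun _ _ h =>
      ⟨IsAlmostUnit.coBipartite (h ε hε), IsAlmostUnit.nearUnit (h ε hε)⟩,
    almostUnitConstr.reduces _ fun _ _ h => by
      obtain ⟨z, r, h1, h2⟩ := IsAlmostUnit.nearUnit (h 1 one_pos)
      exact ⟨z, r, fun v => lt_of_lt_of_le one_pos (h1 v).1, h2⟩,
    almostUnitConstr.inP_iff⟩

end Pool.Agent.Results.MP_128e7d_lc.AlmostUnitDiskGraphs
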