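import Pool.Agent.J4.H77.CG.Main

/-!
# The Weisfeiler-Leman dimension of circle graphs is at most five

A circle graph is the intersection graph of chords of a circle or, equivalently, the overlap graph
of intervals with different ends. We show that the five-dimensional Weisfeiler-Leman method
distinguishes every finite circle graph from every other finite graph. Circle graphs are closed
under local complementation and have unbounded clique-width (rank-width); they contain the
permutation graphs, the distance-hereditary graphs and the outerplanar graphs.

Sketch of the proof.

1. For an edge `r s` let `D` be the digraph on the other vertices with an arc from `y` to `z` if the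
adjacency of `y` and `z` is not the conjunction of `y ~ r` and `z ~ s`. Between different strongly
connected components the adjacency is determined by `r`, `s` and the order of the components, so
the graph is determined by the graphs induced on `C ∪ {r, s}` for the components `C`, and the method
sees this (`closed_step`). If `U` is a side of a split (all vertices outside of `U` with neighbours
in `U` have the same neighbours in `U`), `s ∈ U` and `r ∉ U`, then `U ∖ {s}` is a union of components.

2. (`star`) Let the chords `r` and `w` have adjacent ends, in a diagram of a connected graph, and
consider an equitable relation for which `r` and `w` are related to themselves only. Related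
vertices are always in a common side of a split which avoids `r` and `w`. This is the main part: a
cut of the line is good if the set of the chords over it is invariant under the relation. The good
cuts divide the line into arcs, and the chords which have exactly one end in an arc are shown to
have the other ends in one and the same second arc; the chords with both ends in the arcs of the
ends of a chord form a side.

3. (`main_step`, `induction_step`) The graph on `C ∪ {r, s}` is connected, and one of `r`, `s`, say
`r`, has an end next to an end of some `w` in `C`. The greatest sides which avoid `r` and `w` are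
invariant, `{s}` is one of them, and the others are sides of the whole graph. The quotient is
visible from `r`, `s`, `w`. In a greatest side `U` choose `s'` with a neighbour `r'` outside and apply
induction to the edge `r' s'` and the components in `U ∖ {s'}`. There are never more than six
pebbles, for `y`, `r'`, `s'`, `r`, `s`, `w`.
-/

set_option autoImplicit false

namespace Pool.Agent.Results.MP_128e7d_lc.CircleGraphsWLDimension

open Pool.Agent.W185.SRG

/-- `G` is a circle graph: there are intervals `[a v, b v]` of the real line for the vertices, all of
whose ends are different, such that two vertices are adjacent if and only if the intervals overlap,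
i.e. meet and none contains the other one. (The ends of a chord of a circle divide the ends of
another chord if and only if the chords cross; cut the circle at a point which is not an end.) -/
def IsCircleGraph {V : Type} (G : SimpleGraph V) : Prop :=
  ∃ a b : V → ℝ, (∀ v, a v < b v) ∧ (∀ u v, a u ≠ b v) ∧ Function.Injective a ∧
    Function.Injective b ∧ ∀ u v, G.Adj u v ↔
      (a u < a v ∧ a v < b u ∧ b u < b v) ∨ (a v < a u ∧ a u < b v ∧ b v < b u)

/-- **Circle graphs have Weisfeiler-Leman dimension at most five.** For every `k ≥ 5`, the
`k`-dimensional Weisfeiler-Leman method decides isomorphism of a finite circle graph with an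
arbitrary finite graph. -/
theorem result (k : ℕ) (hk : 5 ≤ k) (V W : Type) [Fintype V] [Fintype W] (G : SimpleGraph V)
    (H : SimpleGraph W) (hG : IsCircleGraph G) :
    WLEquivalent k G H ↔ Nonempty (G ≃g H) := by
  classical
  constructor
  · intro h
    obtain ⟨a, b, h1, h2, h3, h4, h5⟩ := hG
    let ρ : ℝ → ℤ := fun p =>
      ((Finset.univ.filter fun v => a v < p).card + (Finset.univ.filter fun v => b v < p).card : ℕ)
    have mono : ∀ p q, (∃ v, a v = p ∨ b v = p) → p < q → ρ p < ρ q := by
      rintro p q ⟨v, hv⟩ hpq
      have e1 : (Finset.univ.filter fun v => a v < p) ⊆ Finset.univ.filter fun v => a v < q :=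
        fun u hu => by
          simp only [Finset.mem_filter, Finset.mem_univ, true_and] at hu ⊢
          exact hu.trans hpq
      have e2 : (Finset.univ.filter fun v => b v < p) ⊆ Finset.univ.filter fun v => b v < q :=
        fun u hu => by
          simp only [Finset.mem_filter, Finset.mem_univ, true_and] at hu ⊢
          exact hu.trans hpq
      show (((Finset.univ.filter fun v => a v < p).card +
        (Finset.univ.filter fun v => b v < p).card : ℕ) : ℤ) <
        ((Finset.univ.filter fun v => a v < q).card +
          (Finset.univ.filter fun v => b v < q).card : ℕ)
      have c1 := Finset.card_le_card e1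
      have c2 := Finset.card_le_card e2
      rcases hv with hv | hv
      · have e3 : (Finset.univ.filter fun v => a v < p) ⊂ Finset.univ.filter fun v => a v < q := by
          refine Finset.ssubset_iff_subset_ne.2 ⟨e1, fun h => ?_⟩
          have h6 : v ∈ Finset.univ.filter fun v => a v < q := by
            simp only [Finset.mem_filter, Finset.mem_univ, true_and]
            rw [hv]
            exact hpq
          rw [← h] at h6
          simp only [Finset.mem_filter, Finset.mem_univ, true_and] at h6
          exact absurd hv.symm.le (not_le.2 h6)
        have := Finset.card_lt_card e3
        omega
      · have e3 : (Finset.univ.filter fun v => b v < p) ⊂ Finset.univ.filter fun v => b v < q := by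
          refine Finset.ssubset_iff_subset_ne.2 ⟨e2, fun h => ?_⟩
          have h6 : v ∈ Finset.univ.filter fun v => b v < q := by
            simp only [Finset.mem_filter, Finset.mem_univ, true_and]
            rw [hv]
            exact hpq
          rw [← h] at h6
          simp only [Finset.mem_filter, Finset.mem_univ, true_and] at h6
          exact absurd hv.symm.le (not_le.2 h6)
        have := Finset.card_lt_card e3
        omega
    have iff : ∀ p q, (∃ v, a v = p ∨ b v = p) → (∃ v, a v = q ∨ b v = q) →
        (ρ p < ρ q ↔ p < q) := by
      intro p q hp hq
      refine ⟨fun h => ?_, mono p q hp⟩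
      rcases lt_trichotomy p q with h6 | h6 | h6
      · exact h6
      · subst h6
        exact absurd h (lt_irrefl _)
      · exact absurd (mono q p hq h6) (not_lt.2 h.le)
    have ea : ∀ v, ∃ v', a v' = a v ∨ b v' = a v := fun v => ⟨v, Or.inl rfl⟩
    have eb : ∀ v, ∃ v', a v' = b v ∨ b v' = b v := fun v => ⟨v, Or.inr rfl⟩
    have ne : ∀ p q, (∃ v, a v = p ∨ b v = p) → (∃ v, a v = q ∨ b v = q) → p ≠ q →
        ρ p ≠ ρ q := by
      intro p q hp hq hpq h
      rcases lt_or_gt_of_ne hpq with h6 | h6
      · exact absurd (mono p q hp h6) (by rw [h]; exact lt_irrefl _)
      · exact absurd (mono q p hq h6) (by rw [h]; exact lt_irrefl _)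
    refine Pool.Agent.J4.H77.CG.main (N := k) hk (a := fun v => ρ (a v)) (b := fun v => ρ (b v))
      ⟨fun v => (iff _ _ (ea v) (eb v)).2 (h1 v), fun u v => ne _ _ (ea u) (eb v) (h2 u v),
        fun u v huv => ⟨ne _ _ (ea u) (ea v) fun h => huv (h3 h),
          ne _ _ (eb u) (eb v) fun h => huv (h4 h)⟩, fun u v => ?_⟩ h
    rw [h5]
    unfold Pool.Agent.J4.H77.CG.Cross
    rw [iff _ _ (ea u) (ea v), iff _ _ (ea v) (eb u), iff _ _ (eb u) (eb v),
      iff _ _ (ea v) (ea u), iff _ _ (ea u) (eb v), iff _ _ (eb v) (eb u)]
  · rintro ⟨φ⟩
    refine ⟨(Equiv.refl (Fin k)).arrowCongr φ.toEquiv, fun t S => ?_⟩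
    refine Pool.Agent.J4.H77.CG.Sm.of_bisim (G := G) (H := H) (fun u v => v = fun i => φ (u i))
      ?_ ?_ (u := S) (v := fun i => φ (S i)) rfl t
    · rintro u _ rfl
      refine Prod.ext ?_ ?_
      · funext i j
        exact propext φ.injective.eq_iff.symm
      · funext i j
        exact propext φ.map_adj_iff.symm
    · rintro u _ rfl
      refine ⟨φ.toEquiv, fun x i => ?_⟩
      funext j
      by_cases h : j = i
      · subst h
        simp
      · simp [h]

end Pool.Agent.Results.MP_128e7d_lc.CircleGraphsWLDimension
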