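import Pool.Agent.J4.H24.CI.Main
import Pool.Agent.J4.H24.CI.Cv

/-!
# Translates of a planar convex set, covered by two cliques: Weisfeiler-Leman dimension at most five

Isomorphism of the intersection graphs of closed disks with radii in `[1, 1 + ε]` which are covered
by two cliques is GI-complete for every `ε > 0`, even if each disk contains one of two points
(`MP_128e7d_lc.AlmostUnitDiskGraphs`).  We show that for `ε = 0`, that is for all unit disk graphs
which are covered by two cliques, and also for all intersection graphs of translates of a planar
convex set which are covered by two cliques, the Weisfeiler-Leman method of dimension five decides
isomorphism (against all finite graphs), so that isomorphism can be tested in polynomial time.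

The complement of such a graph is bipartite, and if `x p` and `y q` form an induced matching, with
`x`, `y` on the same side, then the segments between the centres of `x`, `p` and of `y`, `q` cross,
and the sense of rotation from the first to the second depends on `x`, `y` only (`Cv.lean`).  We
treat all bipartite graphs with such an orientation (`Oriented`) and their complements.  This class
contains the cocomparability bigraphs of Hell, Huang, Lin and McConnell: bipartite graphs whose
matrix can be ordered such that there is no submatrix `(0 1; 1 0)`.

The proof is a theory like Gallai's for comparability graphs.  Say that `(x, y)` and `(p, q)` are
related if `x p`, `y q` is an induced matching.  The support of a class of this relation is seen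
uniformly (on each of its two sides) from outside (`sup_unif`).  Let `U` be a set of vertices which
is seen uniformly from outside.  If the graph on `U` is disconnected, or its bipartite complement
is, or the bipartite tournament of the edges (from left to right) and non-edges (from right to
left) is not strongly connected, then `U` splits into smaller such sets.  Otherwise there is one
and only one class whose support is `U` (`exists_span`, `span_unique`), by a triangle lemma (`tri'`)
the pairs of one side which are not separated by this class generate blocks, the blocks of the two
sides are matched (`splitters`) and form again such sets, and the blocks are linearly ordered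
(`L_trans`).  This order is visible after the individualization of one pair of vertices, so that
the isomorphism type of `U` is determined by those of the parts; two pairs of vertices and the
next pair of a chain of a class are six pebbles.

Pieces of the proof by helpers 3, 4, 12, 14, 16, 19, 21, 23, 27, 29, 30, 33, 40, 43, 45, 46, 49,
50, 55, 59, 66, 69, 71, 80, 85, 89, 91; the game with lists of pairs and the matching lemma are from
helper77 (circle graphs).
-/

set_option autoImplicit false

namespace Pool.Agent.Results.MP_128e7d_lc.EqualDisksWLDimension

open Pool.Agent.W185.SRG Pool.Agent.J4.H24.CI

/-- **Intersection graphs of translates of a planar convex set which are covered by two cliques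
have Weisfeiler-Leman dimension at most five.** For every `k ≥ 5` and all finite graphs `G`, `H`:
if `G` is the intersection graph of translates of a nonempty convex set in the plane (for example a
unit disk graph) and a union of two cliques, or if `G` or the complement of `G` is bipartite and
its induced matchings can be oriented (`Oriented`), then the `k`-dimensional Weisfeiler-Leman method
does not distinguish `G` and `H` if and only if they are isomorphic. -/
theorem result (k : ℕ) (hk : 5 ≤ k) (V W : Type) [Fintype V] [Fintype W] (G : SimpleGraph V)
    (H : SimpleGraph W)
    (hG : (IsTranslateGraph G ∧ CoBipartite G) ∨ Oriented G.Adj ∨ Oriented Gᶜ.Adj) :
    WLEquivalent k G H ↔ Nonempty (G ≃g H) := by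
  classical
  constructor
  · intro h
    rcases hG with ⟨h1, h2⟩ | hG | hG
    · exact main_cobip hk (translate_oriented h2 h1) h
    · exact main_bip hk hG h
    · exact main_cobip hk hG h
  · rintro ⟨φ⟩
    refine ⟨(Equiv.refl (Fin k)).arrowCongr φ.toEquiv, fun t S => ?_⟩
    refine Pool.Agent.J4.H77.CG.Sm.of_bisim (G := G) (H := H) (fun u v => v = fun i => φ (u i))
      ?_ ?_ (u := S) (v := fun i => φ (S i)) rfl t
    · rintro u _ rfl
      refine Prod.ext ?_ ?_
      · funext i j
        exact propext φ.injective.eq_iff.symm
      · funext i j
        exact propext φ.map_adj_iff.symm
    · rintro u _ rfl
      refine ⟨φ.toEquiv, fun x i => ?_⟩
      funext j
      by_cases h : j = i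
      · subst h
        simp
      · simp [h]

end Pool.Agent.Results.MP_128e7d_lc.EqualDisksWLDimension
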