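import Pool.Agent.J4.H79.GI.BallThin

/-!
# Isomorphism of unit ball graphs is GI-complete, even if all centres are almost in a plane

Intersection graphs of Euclidean balls of radius one whose centres lie in a plane are the unit disk
graphs; the complexity of their isomorphism problem is open. We show that the problem is as hard as
for arbitrary graphs as soon as the centres may leave the plane, by an arbitrarily small amount:
for every `ε > 0` the graph isomorphism problem reduces, by a polynomial-time many-one reduction (a
Turing machine in the sense of Mathlib, working on bit strings), to the isomorphism problem of the
intersection graphs of unit balls with centres in the slab `ℝ² × [-ε, ε]`. The centres may even be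
required to have distance at most `ε` from one of two fixed points of distance two, so that they
are near to a line and every ball contains one of these two points (if `ε ≤ 1`), and the graphs are
covered by two cliques. If all centres lie in a plane, such graphs are unit disk graphs covered by two
cliques, whose Weisfeiler-Leman dimension is at most five (`EqualDisksWLDimension`, a result of this
team), so there is an exact dichotomy.

The graphs produced do not depend on `ε`, are covered by two cliques, and are also intersection
graphs of axis-parallel cubes of side two. For cubes a thin slab is no restriction of this kind:
cubes with centres in `ℝ² × [-1, 1]` are the same as unit squares in the plane, and isomorphism of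
unit square graphs is in `P` (Neuen 2016).

The two parts of the strict order of height two of `Pool.Agent.W125.Dim` (whose order dimension is
at most three) are turned into cliques.  The parts can be recovered from the graph.  A lower
element `a` and an upper element `b` are adjacent iff `p i a < p i b` for three rank functions
`p 0`, `p 1`, `p 2`; cubes realise this directly, and balls realise it near two opposite poles,
where the sphere is approximated by a paraboloid and the condition becomes the positivity of a
bilinear form in `(4 ^ p 0 a, 4 ^ p 1 a)` plus functions of `a` and of `b`. The scale is arbitrary.
-/

set_option autoImplicit false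

namespace Pool.Agent.Results.MP_128e7d_lc.UnitBallGraphs

open Pool.Agent.NPC Pool.Agent.NPC.R671 Pool.Agent.Y815.GI Pool.Agent.J4.H79.GI

/-- **The isomorphism problem for unit ball graphs with centres in an arbitrarily thin slab is
GI-complete, even for graphs covered by two cliques.**

* There is a polynomial-time computable function `f` on bit strings such that, for *every* bit
  string `x`, the value `f x` codes a pair of adjacency matrices of graphs `X'`, `Y'` of
  `PinchedClass` (each is covered by two cliques, is, for every `ε > 0`, an intersection graph of
  Euclidean balls of radius one in `ℝ³` whose centres have distance at most `ε` from `(0, 0, 0)` or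
  from `(2, 0, 0)`, and is an intersection graph of axis-parallel cubes of side two in `ℝ³`), and
  `x` is a yes-instance of the graph isomorphism problem iff `X'` and `Y'` are isomorphic.
* So the graph isomorphism problem is polynomial-time many-one reducible to the isomorphism
  problem of every class of graphs which contains `PinchedClass`; in particular, for every `ε > 0`,
  to the isomorphism of intersection graphs of unit balls with centres in `ℝ² × [-ε, ε]`, and to
  the isomorphism of unit cube graphs of `ℝ³`.
* Graph isomorphism is in `P` iff some language in `P` decides isomorphism correctly on the pairs
  of graphs of `PinchedClass`. -/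
theorem result :
    (∃ f : List Bool → List Bool, PolyTime f ∧ ∀ x : List Bool,
      ∃ (N M : ℕ) (X' : SimpleGraph (Fin N)) (Y' : SimpleGraph (Fin M)),
        f x = bits (adjMatrix X', adjMatrix Y') ∧ PinchedClass X' ∧ PinchedClass Y' ∧
          (x ∈ lang GraphIso ↔ Nonempty (X' ≃g Y'))) ∧
    (∀ C : ∀ n : ℕ, SimpleGraph (Fin n) → Prop,
      (∀ (n : ℕ) (X : SimpleGraph (Fin n)), PinchedClass X → C n X) →
        Reduces (lang GraphIso) (lang (ClassIso C))) ∧
    (∀ ε : ℝ, 0 < ε → Reduces (lang GraphIso) (lang (ClassIso fun _ X => IsSlab ε X))) ∧
    Reduces (lang GraphIso) (lang (ClassIso fun _ X => IsUnitBallGraph (Fin 3 → ℝ) X)) ∧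
    (InP (lang GraphIso) ↔ ∃ L : Set (List Bool), InP L ∧
      ∀ (N M : ℕ) (X : SimpleGraph (Fin N)) (Y : SimpleGraph (Fin M)),
        PinchedClass X → PinchedClass Y →
          (bits (adjMatrix X, adjMatrix Y) ∈ L ↔ Nonempty (X ≃g Y))) :=
  ⟨mainP, reducesP, fun ε hε => reducesP _ fun _ _ h => (h.2.1 ε hε).slab,
    reducesP _ fun _ _ h => h.2.2, inP_iffP⟩

end Pool.Agent.Results.MP_128e7d_lc.UnitBallGraphs
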